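import Pool.Agent.TH879.KZ.Circ2

/-!
# Cayley graphs on `ℤ/m` of chromatic number three

If `Cay(ℤ/p, S)` is 3-colourable, or has circular chromatic number less than four, then one linear
phase `x ↦ a x` sends all of `S` outside the interval `[-p/4, p/4]` modulo `p`.
-/

set_option autoImplicit false

namespace Pool.Agent.Results.MP_2bc700_co.LinearPhase

open Pool.Agent.TH879.KZ in
/-- one linear phase for circular colourings -/
lemma circ {m : ℕ} [NeZero m] {ρ : ℝ} (hρ : 1 / 4 < ρ) (S : Set (ZMod m))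
    (h : ∃ f : ZMod m → AddCircle (1 : ℝ), ∀ x, ∀ s ∈ S, ρ ≤ ‖f (x + s) - f x‖) :
    ∃ a : ZMod m, ∀ s ∈ S,
      ρ ≤ |((a * s).val : ℝ) / m - round (((a * s).val : ℝ) / m)| := by
  obtain ⟨φ, hφ⟩ := (circ_iff hρ S).mp h
  obtain ⟨a, ha⟩ := char_eq (m := m) (n := 1)
    (φ.comp (Pi.evalAddMonoidHom (fun _ : Fin 1 => ZMod m) 0))
  refine ⟨a 0, fun s hs => ?_⟩
  have h1 : φ s = ((((a 0 * s).val : ℝ) / m : ℝ) : AddCircle (1 : ℝ)) := by
    have := ha (fun _ => s)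
    simpa using this
  have h2 := hφ s hs
  rw [h1, AddCircle.norm_eq] at h2
  simpa using h2

/-- **Chromatic number three and circular chromatic number below four: one linear phase.** -/
theorem result :
    -- (1) 3-colourable iff one linear phase maps `S` into `[m/3, 2m/3]`
    (∀ m : ℕ, 1 ≤ m → ∀ S : Set (ZMod m),
      (∃ f : ZMod m → Fin 3, ∀ x, ∀ s ∈ S, f x ≠ f (x + s)) ↔
        ∃ a : ZMod m, ∀ s ∈ S, m ≤ 3 * (a * s).val ∧ 3 * (a * s).val ≤ 2 * m) ∧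
    -- (2) circular chromatic number at most `1/ρ < 4`: one linear phase has distance at least `ρ`
    (∀ m : ℕ, 1 ≤ m → ∀ S : Set (ZMod m), ∀ ρ : ℝ, 1 / 4 < ρ →
      (∃ f : ZMod m → AddCircle (1 : ℝ), ∀ x, ∀ s ∈ S, ρ ≤ ‖f (x + s) - f x‖) →
        ∃ a : ZMod m, ∀ s ∈ S,
          ρ ≤ |((a * s).val : ℝ) / m - round (((a * s).val : ℝ) / m)|) ∧
    -- (3) Q1 for `C = 3`, with `K = 4` and all polynomials equal to one linear phase
    (∀ p : ℕ, p.Prime → ∀ S : Set (ZMod p),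
      (∃ f : ZMod p → Fin 3, ∀ x, ∀ s ∈ S, f x ≠ f (x + s)) →
        ∃ b : ZMod p, ∀ s ∈ S,
          1 / 4 < |((b * s).val : ℝ) / p - round (((b * s).val : ℝ) / p)|) := by
  have h1 : ∀ m : ℕ, 1 ≤ m → ∀ S : Set (ZMod m),
      (∃ f : ZMod m → Fin 3, ∀ x, ∀ s ∈ S, f x ≠ f (x + s)) ↔
        ∃ a : ZMod m, ∀ s ∈ S, m ≤ 3 * (a * s).val ∧ 3 * (a * s).val ≤ 2 * m := by
    intro m hm S
    have : NeZero m := ⟨by omega⟩
    have key := Pool.Agent.TH879.KZ.zmod_iff m 1 {v : Fin 1 → ZMod m | v 0 ∈ S}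
    constructor
    · rintro ⟨f, hf⟩
      obtain ⟨a, ha⟩ := key.mp ⟨fun v => f (v 0), fun v s hs => hf (v 0) (s 0) hs⟩
      refine ⟨a 0, fun s hs => ?_⟩
      have := ha (fun _ => s) hs
      simpa using this
    · rintro ⟨a, ha⟩
      obtain ⟨f, hf⟩ := key.mpr ⟨fun _ => a, fun v hv => by simpa using ha (v 0) hv⟩
      exact ⟨fun x => f (fun _ => x), fun x s hs => hf (fun _ => x) (fun _ => s) hs⟩
  refine ⟨h1, fun m hm S ρ hρ h => ?_, fun p hp S h => ?_⟩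
  · have : NeZero m := ⟨by omega⟩
    exact circ hρ S h
  · have : NeZero p := ⟨hp.ne_zero⟩
    obtain ⟨a, ha⟩ := (h1 p hp.one_lt.le S).mp h
    refine ⟨a, fun s hs => ?_⟩
    have hm : (0 : ℝ) < p := by exact_mod_cast hp.pos
    obtain ⟨h2, h3⟩ := ha s hs
    have h2' : (p : ℝ) ≤ 3 * ((a * s).val : ℝ) := by exact_mod_cast h2
    have h3' : 3 * ((a * s).val : ℝ) ≤ 2 * p := by exact_mod_cast h3
    have h4 : (1 : ℝ) / 3 ≤ |((a * s).val : ℝ) / p - round (((a * s).val : ℝ) / p)| := by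
      refine (Pool.Agent.TH879.KZ.round_iff _).mpr ⟨((a * s).val : ℝ) / p, ?_, ?_, rfl⟩
      · rw [div_le_div_iff₀ (by norm_num) hm]; linarith
      · rw [div_le_div_iff₀ hm (by norm_num)]; linarith
    linarith

end Pool.Agent.Results.MP_2bc700_co.LinearPhase
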